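import Mathlib

namespace Pool.Agent.Results.MP_2aac2f_an.Sturm

open Filter Topology TopologicalSpace

section Defs

variable {X : Type} [MetricSpace X]

/-- The least size of a set that `ε`-spans `X` for the Bowen distance `d_n`. -/
noncomputable def Span (T : X → X) (n : ℕ) (ε : ℝ) : ℕ :=
  sInf {m | ∃ E : Finset X, E.card = m ∧ ∀ x, ∃ y ∈ E, ∀ i < n, dist (T^[i] x) (T^[i] y) < ε}

/-- The order `[a] ≤ [b]` on orders of growth. -/
def Le (a b : ℕ → ℝ) : Prop := ∃ C > 0, ∀ n ≥ 1, a n ≤ C * b n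

/-- `o(T) = [n]`: the classes `[Span(T,n,ε)]` and the class `[n]` have the same upper bounds. -/
def LinearGrowth (T : X → X) : Prop :=
  ∀ b : ℕ → ℝ, Monotone b → (∀ n, 0 ≤ b n) →
    ((∀ ε > 0, Le (fun n => Span T n ε) b) ↔ Le (fun n => n) b)

/-- Topological entropy. -/
noncomputable def ent (T : X → X) : EReal :=
  ⨆ ε > 0, limsup (fun n : ℕ => ((Real.log (Span T n ε) / n : ℝ) : EReal)) atTop

lemma span_mem {ι : Type} [Fintype ι] [Nonempty X] {T : X → X} {n : ℕ} {ε : ℝ} (φ : X → ι)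
    (h : ∀ x y, φ x = φ y → ∀ i < n, dist (T^[i] x) (T^[i] y) < ε) :
    ∃ E : Finset X, E.card ≤ Fintype.card ι ∧
      ∀ x, ∃ y ∈ E, ∀ i < n, dist (T^[i] x) (T^[i] y) < ε := by
  classical
  exact ⟨Finset.univ.image (Function.invFun φ), Finset.card_image_le, fun x =>
    ⟨_, Finset.mem_image_of_mem _ (Finset.mem_univ (φ x)),
      h _ _ (Function.invFun_eq ⟨x, rfl⟩).symm⟩⟩

lemma span_le {ι : Type} [Fintype ι] [Nonempty X] {T : X → X} {n : ℕ} {ε : ℝ} (φ : X → ι)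
    (h : ∀ x y, φ x = φ y → ∀ i < n, dist (T^[i] x) (T^[i] y) < ε) :
    Span T n ε ≤ Fintype.card ι := by
  obtain ⟨E, h1, h2⟩ := span_mem φ h
  exact le_trans (Nat.sInf_le (by exact ⟨E, rfl, h2⟩)) h1

end Defs

/-- The Sturmian coding of the orbit of `θ`. -/
noncomputable def c (α θ : ℝ) (i : ℕ) : ℤ := ⌊θ + (i + 1 : ℕ) * α⌋ - ⌊θ + i * α⌋

/-- The cut points. -/
noncomputable def pt (α : ℝ) (j : ℕ) : ℝ := Int.fract (-(j * α))

lemma c_add (α θ : ℝ) (j i : ℕ) : c α θ (j + i) = c α (θ + j * α) i := by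
  simp only [c]
  congr 2 <;> push_cast <;> ring

lemma c_eq {α θ η : ℝ} {N : ℕ} (h : ∀ i ≤ N, ⌊θ + i * α⌋ = ⌊η + i * α⌋) :
    ∀ i < N, c α θ i = c α η i := fun i hi => by
  rw [c, c, h _ hi, h _ hi.le]

lemma rep (α θ : ℝ) (N : ℕ) : ∃ j : Fin (N + 1), ∀ i < N, c α θ i = c α (pt α j) i := by
  obtain ⟨j, h1, h2⟩ := Finset.exists_max_image
    (Finset.univ.filter fun j : Fin (N + 1) => pt α j ≤ Int.fract θ) (fun j => pt α j)
    ⟨0, by simp [pt]⟩
  simp only [Finset.mem_filter, Finset.mem_univ, true_and] at h1 h2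
  refine ⟨j, fun i hi => Eq.trans ?_ (c_eq (θ := Int.fract θ) (fun i hi => ?_) i hi)⟩
  · have e : ∀ t : ℝ, θ + t = Int.fract θ + t + ⌊θ⌋ := fun t => by rw [Int.fract]; ring
    simp only [c, e, Int.floor_add_intCast]
    ring
  · refine le_antisymm ?_ (Int.floor_mono (by linarith))
    by_contra hc
    have h3 : pt α j + i * α < ⌊Int.fract θ + i * α⌋ := Int.floor_lt.1 (not_le.1 hc)
    have h4 := Int.floor_le (Int.fract θ + i * α)
    have h5 : pt α i = ⌊Int.fract θ + i * α⌋ - i * α := by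
      refine Int.fract_eq_iff.2 ⟨?_, ?_, -⌊Int.fract θ + i * α⌋, by push_cast; ring⟩
      · linarith [show 0 ≤ pt α j from Int.fract_nonneg _]
      · linarith [Int.fract_lt_one θ]
    have := h2 ⟨i, by omega⟩ (by simp only [h5]; linarith)
    simp only [h5] at this
    linarith

lemma dis {α : ℝ} {N j k : ℕ} (hk : k ≤ N) (h : ∀ i < N, c α (pt α j) i = c α (pt α k) i) :
    pt α k ≤ pt α j := by
  have h1 : ∀ i ≤ N, ⌊pt α j + i * α⌋ = ⌊pt α k + i * α⌋ := fun i hi => by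
    induction i with
    | zero => simp [pt]
    | succ i ih =>
      have := h i hi
      rw [c, c, ih (by omega)] at this
      omega
  have h2 : pt α k + k * α = (-⌊-(k * α)⌋ : ℤ) := by rw [pt, Int.fract]; push_cast; ring
  have h3 := Int.floor_le (pt α j + k * α)
  rw [h1 k hk, h2, Int.floor_intCast, ← h2] at h3
  linarith

lemma pt_inj {α : ℝ} (hα : Irrational α) {j k : ℕ} (h : pt α j = pt α k) : j = k := by
  obtain ⟨z, hz⟩ := Int.fract_eq_fract.1 h
  by_contra hc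
  refine (hα.intCast_mul (m := (k : ℤ) - j) (by omega)).ne_int z ?_
  rw [← hz]
  push_cast
  ring

lemma gap (α : ℝ) (r : ℕ) : ∃ M : ℕ, 0 < M ∧ ∀ a θ b : ℝ, a ≤ θ → θ ≤ b → (b - a) * M < 1 →
    (∀ i < r, c α θ i = c α a i) ∨ ∀ i < r, c α θ i = c α b i := by
  obtain ⟨k, -, hk⟩ := Finset.exists_min_image (Finset.Icc (-r : ℤ) r)
    (fun k => (⌊k * α⌋ + 1 - k * α : ℝ)) ⟨0, by simp⟩
  have h0 : (0 : ℝ) < ⌊k * α⌋ + 1 - k * α := by linarith [Int.lt_floor_add_one (k * α)]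
  obtain ⟨M, hM⟩ := exists_nat_one_div_lt h0
  refine ⟨M + 1, by omega, fun a θ b h1 h2 h3 => ?_⟩
  by_contra hc
  obtain ⟨p, q⟩ := not_or.1 hc
  replace p := mt c_eq p
  replace q := mt c_eq q
  push Not at p q
  obtain ⟨i, hi, p⟩ := p
  obtain ⟨j, hj, q⟩ := q
  have p1 : a + i * α < ⌊θ + i * α⌋ :=
    Int.floor_lt.1 (lt_of_le_of_ne (Int.floor_mono (by linarith)) p.symm)
  have q1 : θ + j * α < ⌊b + j * α⌋ :=
    Int.floor_lt.1 (lt_of_le_of_ne (Int.floor_mono (by linarith)) q)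
  have p2 := Int.floor_le (θ + i * α)
  have q2 := Int.floor_le (b + j * α)
  have h4 := hk (j - i) (by simp only [Finset.mem_Icc]; omega)
  have h5 : ⌊((j - i : ℤ) : ℝ) * α⌋ + 1 ≤ ⌊b + j * α⌋ - ⌊θ + i * α⌋ :=
    Int.floor_lt.2 (by push_cast; linarith)
  have h6 : ((⌊((j - i : ℤ) : ℝ) * α⌋ + 1 : ℤ) : ℝ) ≤ (⌊b + j * α⌋ - ⌊θ + i * α⌋ : ℤ) := by
    exact_mod_cast h5
  have h7 : b - a < 1 / (M + 1) := by
    rw [lt_div_iff₀ (by positivity)]
    exact_mod_cast h3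
  push_cast at h4 h6
  linarith

lemma code {ι : Type} [Finite ι] (p : ι → ℝ) (V : ι → Prop)
    (h : ∀ a b j, V a → V b → p a ≤ p j → p j ≤ p b → V j) :
    ∃ t : Option (ι × ι), ∀ j, V j ↔ ∃ u, t = some u ∧ p u.1 ≤ p j ∧ p j ≤ p u.2 := by
  by_cases hV : ∃ j, V j
  · obtain ⟨a, a1, a2⟩ := Set.exists_min_image {j | V j} p (Set.toFinite _) hV
    obtain ⟨b, b1, b2⟩ := Set.exists_max_image {j | V j} p (Set.toFinite _) hV
    exact ⟨some (a, b), fun j => ⟨fun hj => ⟨_, rfl, a2 j hj, b2 j hj⟩, by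
      rintro ⟨_, ⟨⟩, h1, h2⟩
      exact h a b j a1 b1 h1 h2⟩⟩
  · exact ⟨none, fun j => by simpa using fun hj => hV ⟨j, hj⟩⟩

lemma model (α : ℝ) : ∃ (X : Type) (_ : MetricSpace X) (_ : CompactSpace X) (T : X → X)
    (_ : Continuous T) (e : X → ℕ → ℤ) (g : ℝ → X), (∀ x i, e (T x) i = e x (i + 1)) ∧
    (∀ θ, e (g θ) = c α θ) ∧ (∀ x N, ∃ θ, ∀ i < N, e x i = c α θ i) ∧
    (∀ x y r, (∀ i < r, e x i = e y i) → dist x y ≤ (1 / 2) ^ r) ∧
    ∀ x y, dist x y < 1 → e x 0 = e y 0 := by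
  let S : Set (ℕ → ℤ) := closure (Set.range (c α))
  have hS : IsCompact S := by
    refine (isCompact_univ_pi fun _ => (Set.finite_Icc (⌊α⌋ - 1) (⌊α⌋ + 1)).isCompact).closure_of_subset ?_
    rintro _ ⟨θ, rfl⟩ i -
    have e : θ + (i + 1 : ℕ) * α = θ + i * α + α := by push_cast; ring
    have h1 := Int.le_floor_add (θ + i * α) α
    have h2 := Int.le_floor_add_floor (θ + i * α) α
    simp only [c, e, Set.mem_Icc]
    omega
  have hc : Continuous fun (x : ℕ → ℤ) i => x (i + 1) := by fun_prop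
  have hm : Set.MapsTo (fun (x : ℕ → ℤ) i => x (i + 1)) S S := by
    refine Set.MapsTo.closure ?_ hc
    rintro _ ⟨θ, rfl⟩
    exact ⟨θ + (1 : ℕ) * α, funext fun i => by rw [← c_add, add_comm]⟩
  let _ : MetricSpace (ℕ → ℤ) := PiNat.metricSpace
  refine ⟨S, inferInstance, isCompact_iff_compactSpace.1 hS, hm.restrict _ _ _, hc.restrict hm,
    Subtype.val, fun θ => ⟨c α θ, subset_closure ⟨θ, rfl⟩⟩, fun _ _ => rfl, fun _ => rfl,
    fun x N => ?_, fun x y r h => PiNat.mem_cylinder_iff_dist_le.1 h,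
    fun x y h => PiNat.apply_eq_of_dist_lt (n := 0) (by rw [pow_zero]; exact h) le_rfl⟩
  obtain ⟨_, h, θ, rfl⟩ := mem_closure_iff.1 x.2 _ (PiNat.isOpen_cylinder _ x.1 N)
    (PiNat.self_mem_cylinder _ _)
  exact ⟨θ, fun i hi => (h i hi).symm⟩

lemma ent_zero {X : Type} [MetricSpace X] {T : X → X}
    (h : ∀ ε > 0, ∃ r M : ℕ, ∀ n, Span T n ε ≤ (n + r) ^ M) : ent T = 0 := by
  have key : ∀ ε > 0, limsup (fun n : ℕ => ((Real.log (Span T n ε) / n : ℝ) : EReal)) atTop = 0 :=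
    fun ε hε => by
      obtain ⟨r, M, h⟩ := h ε hε
      refine Tendsto.limsup_eq (EReal.tendsto_coe (a := 0).2 ?_)
      have h1 : Tendsto (fun n : ℕ => (M : ℝ) * (Real.log (n + r) ^ 1 / (1 * (n + r) + -r))) atTop
          (𝓝 ((M : ℝ) * 0)) := ((Real.tendsto_pow_log_div_mul_add_atTop 1 (-r) 1 one_ne_zero).comp
        (tendsto_atTop_add_const_right _ _ tendsto_natCast_atTop_atTop)).const_mul _
      refine squeeze_zero (fun n => by positivity) (fun n => ?_) (by simpa using h1)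
      rw [← mul_div_assoc, ← Real.log_pow]
      rcases (Span T n ε).eq_zero_or_pos with h0 | h0
      · rw [h0]
        simp only [Nat.cast_zero, Real.log_zero, zero_div]
        exact div_nonneg (by exact_mod_cast Real.log_natCast_nonneg ((n + r) ^ M)) (by positivity)
      · gcongr
        exact_mod_cast h n
  refine le_antisymm (iSup₂_le fun ε hε => (key ε hε).le) ?_
  exact le_iSup₂_of_le 1 one_pos (key 1 one_pos).ge

theorem result : ∃ (X : Type) (_ : MetricSpace X) (_ : CompactSpace X) (T : X → X)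
    (hT : Continuous T), LinearGrowth T ∧ ent (NonemptyCompacts.map T hT) = 0 := by
  obtain ⟨α, hα⟩ : ∃ α, Irrational α := ⟨_, irrational_sqrt_two⟩
  obtain ⟨X, _, _, T, hT, e, g, e1, e2, e3, e4, e5⟩ := model α
  have it : ∀ j x i, e (T^[j] x) i = e x (j + i) := fun j => by
    induction j with
    | zero => simp
    | succ j ih => intro x i; rw [Function.iterate_succ_apply, ih, e1]; congr 1; omega
  have rp : ∀ N x, ∃ j : Fin (N + 1), ∀ i < N, e x i = c α (pt α j) i := fun N x => by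
    obtain ⟨θ, h⟩ := e3 x N
    obtain ⟨j, hj⟩ := rep α θ N
    exact ⟨j, fun i hi => (h i hi).trans (hj i hi)⟩
  choose φ hφ using rp
  have : Nonempty X := ⟨g 0⟩
  have small : ∀ ε > 0, ∃ r : ℕ, (1 / 2 : ℝ) ^ r < ε := fun ε hε =>
    exists_pow_lt_of_lt_one hε (by norm_num)
  have up : ∀ {ε : ℝ} {r : ℕ}, (1 / 2 : ℝ) ^ r < ε → ∀ n x y, φ (n + r) x = φ (n + r) y →
      ∀ i < n, dist (T^[i] x) (T^[i] y) < ε := fun h n x y hxy i hi =>
    (e4 _ _ _ fun k hk => by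
      rw [it, it, hφ _ x _ (Nat.add_lt_add hi hk), hφ _ y _ (Nat.add_lt_add hi hk), hxy]).trans_lt h
  have lo : ∀ n, n ≤ Span T n 1 := fun n => by
    obtain ⟨E, -, hE⟩ := span_mem _ (up (ε := 1) (r := 1) (by norm_num) n)
    refine le_csInf ⟨_, E, rfl, hE⟩ ?_
    rintro _ ⟨F, rfl, hF⟩
    choose y hy using hF
    have ag : ∀ x, ∀ i < n, e x i = e (y x) i := fun x i hi => by
      simpa [it] using e5 _ _ ((hy x).2 i hi)
    have := Finset.card_le_card_of_injOn (s := Finset.range n) (t := F) (fun j => y (g (pt α j)))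
      (fun j _ => (hy _).1) fun j hj k hk (h : y _ = y _) => by
        have h1 : ∀ i < n, c α (pt α j) i = c α (pt α k) i := fun i hi => by
          rw [← e2, ← e2, ag _ i hi, h, ← ag _ i hi]
        exact pt_inj hα (le_antisymm (dis (by simpa using le_of_lt (by simpa using hj))
          fun i hi => (h1 i hi).symm) (dis (by simpa using le_of_lt (by simpa using hk)) h1))
    simpa using this
  refine ⟨X, _, ‹_›, T, hT, fun b _ b0 => ⟨fun h => ?_, fun ⟨C, C0, h⟩ ε hε => ?_⟩,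
    ent_zero fun ε hε => ?_⟩
  · obtain ⟨C, C0, h⟩ := h 1 one_pos
    exact ⟨C, C0, fun n hn => le_trans (Nat.cast_le.2 (lo n)) (h n hn)⟩
  · obtain ⟨r, hr⟩ := small ε hε
    refine ⟨(r + 2) * C, by positivity, fun n hn => ?_⟩
    have h1 : Span T n ε ≤ (r + 2) * n := (span_le _ (up hr n)).trans (by simp; nlinarith)
    have h2 : (Span T n ε : ℝ) ≤ (r + 2) * n := by exact_mod_cast h1
    rw [mul_assoc]
    exact h2.trans (mul_le_mul_of_nonneg_left (h n hn) (by positivity))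
  obtain ⟨r, hr⟩ := small ε hε
  obtain ⟨M, M0, hM⟩ := gap α r
  refine ⟨r + 2, 2 * M, fun n => ?_⟩
  let V : NonemptyCompacts X → Fin (n + r + 1) → Prop := fun K j =>
    ∀ i < n, ∃ x ∈ (K : Set X), ∀ k < r, e x (i + k) = c α (pt α j) (i + k)
  have cd : ∀ K (m : Fin M), ∃ t : Option (Fin (n + r + 1) × Fin (n + r + 1)), ∀ j,
      (V K j ∧ ⌊pt α j * M⌋₊ = m) ↔ ∃ u, t = some u ∧ pt α u.1 ≤ pt α j ∧ pt α j ≤ pt α u.2 :=
    fun K m => code (fun j : Fin _ => pt α j) _ fun a b j ⟨a1, a2⟩ ⟨b1, b2⟩ h1 h2 => by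
      refine ⟨fun i hi => ?_, le_antisymm (b2 ▸ Nat.floor_mono (by gcongr))
        (a2 ▸ Nat.floor_mono (by gcongr))⟩
      have p1 := Nat.lt_floor_add_one (pt α b * M)
      have p2 := Nat.floor_le (a := pt α a * M) (mul_nonneg (Int.fract_nonneg _) (by positivity))
      rw [b2] at p1
      rw [a2] at p2
      rcases hM (pt α a + i * α) (pt α j + i * α) (pt α b + i * α) (by linarith) (by linarith)
        (by linarith) with h | h
      · obtain ⟨x, x1, x2⟩ := a1 i hi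
        exact ⟨x, x1, fun k hk => by rw [x2 k hk, c_add, c_add, h k hk]⟩
      · obtain ⟨x, x1, x2⟩ := b1 i hi
        exact ⟨x, x1, fun k hk => by rw [x2 k hk, c_add, c_add, h k hk]⟩
  choose ψ hψ using cd
  have im : ∀ i (K : NonemptyCompacts X),
      (((NonemptyCompacts.map T hT)^[i] K : NonemptyCompacts X) : Set X) = T^[i] '' K := fun i => by
    induction i with
    | zero => simp
    | succ i ih => intro K; rw [Function.iterate_succ_apply, ih]; simp [Set.image_image]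
  have half : ∀ K L, ψ K = ψ L → ∀ i < n, ∀ x ∈ T^[i] '' (K : Set X), ∃ y ∈ T^[i] '' (L : Set X),
      dist x y ≤ (1 / 2) ^ r := by
    rintro K L h i hi _ ⟨x, hx, rfl⟩
    have h1 : V K (φ _ x) := fun i hi => ⟨x, hx, fun k hk => hφ _ x _ (by omega)⟩
    have h2 : ⌊pt α (φ (n + r) x) * M⌋₊ < M := (Nat.floor_lt' M0.ne').2
      (mul_lt_of_lt_one_left (by positivity) (Int.fract_lt_one _))
    obtain ⟨y, y1, y2⟩ := ((hψ L ⟨_, h2⟩ _).2 (h ▸ (hψ K ⟨_, h2⟩ _).1 ⟨h1, rfl⟩)).1 i hi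
    exact ⟨_, ⟨y, y1, rfl⟩, e4 _ _ _ fun k hk => by
      rw [it, it, y2 k hk, hφ _ x _ (Nat.add_lt_add hi hk)]⟩
  refine (span_le ψ fun K L h i hi => lt_of_le_of_lt ?_ hr).trans ?_
  · rw [Metric.NonemptyCompacts.dist_eq, im, im]
    exact Metric.hausdorffDist_le_of_mem_dist (by positivity) (half K L h i hi)
      (half L K h.symm i hi)
  · simp only [Fintype.card_pi, Finset.prod_const, Fintype.card_option, Fintype.card_prod,
      Fintype.card_fin, Finset.card_univ, pow_mul]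
    exact Nat.pow_le_pow_left (by nlinarith) _

end Pool.Agent.Results.MP_2aac2f_an.Sturm
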